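import Mathlib
import Pool.Agent.TH119.GO.Sub

/-!
# Semisimplification of continuous representations
-/

set_option autoImplicit false
set_option linter.unusedSectionVars false

namespace Pool.Agent.TH119.FT

open Matrix
open Pool.Agent.TH119.OP (SS)

universe v w

variable {G : Type w} [Group G] [TopologicalSpace G] {k : Type*} [Field k] [TopologicalSpace k]
  [IsTopologicalRing k]

/-- Stable subspaces have stable complements. -/
def SSm {V : Type*} [AddCommGroup V] [Module k V] (ρ : G →* (V →ₗ[k] V)) : Prop :=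
  ∀ U : Submodule k V, (∀ g, ∀ x ∈ U, ρ g x ∈ U) →
    ∃ U' : Submodule k V, (∀ g, ∀ x ∈ U', ρ g x ∈ U') ∧ IsCompl U U'

/-- The coefficients are continuous. -/
def Cm {V : Type*} [AddCommGroup V] [Module k V] (ρ : G →* (V →ₗ[k] V)) : Prop :=
  ∀ (x : V) (φ : V →ₗ[k] k), Continuous fun g => φ (ρ g x)

/-- Transport of structure. -/
def cj {V V' : Type*} [AddCommGroup V] [Module k V] [AddCommGroup V'] [Module k V']
    (e : V ≃ₗ[k] V') (ρ : G →* (V →ₗ[k] V)) : G →* (V' →ₗ[k] V') where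
  toFun g := e.toLinearMap ∘ₗ ρ g ∘ₗ e.symm.toLinearMap
  map_one' := by
    ext x
    simp
  map_mul' g h := by
    ext x
    simp

theorem cj_apply {V V' : Type*} [AddCommGroup V] [Module k V] [AddCommGroup V'] [Module k V']
    (e : V ≃ₗ[k] V') (ρ : G →* (V →ₗ[k] V)) (g : G) (x : V') :
    cj e ρ g x = e (ρ g (e.symm x)) := rfl

theorem ssm_cj {V V' : Type*} [AddCommGroup V] [Module k V] [AddCommGroup V'] [Module k V']
    (e : V ≃ₗ[k] V') {ρ : G →* (V →ₗ[k] V)} (h : SSm ρ) : SSm (cj e ρ) := by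
  intro U hU
  obtain ⟨U', h1, h2⟩ := h (U.comap e.toLinearMap) (by
    intro g x hx
    have := hU g _ hx
    rw [LinearEquiv.coe_coe, cj_apply, e.symm_apply_apply] at this
    exact this)
  refine ⟨U'.map e.toLinearMap, ?_, ?_⟩
  · rintro g _ ⟨x, hx, rfl⟩
    refine ⟨ρ g x, h1 g x hx, ?_⟩
    rw [LinearEquiv.coe_coe, cj_apply, e.symm_apply_apply]
  · have h3 := (Submodule.orderIsoMapComap e).isCompl h2
    have h4 : (Submodule.orderIsoMapComap e) (U.comap e.toLinearMap) = U :=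
      (Submodule.orderIsoMapComap e).apply_symm_apply U
    rw [h4] at h3
    exact h3

theorem cm_cj {V V' : Type*} [AddCommGroup V] [Module k V] [AddCommGroup V'] [Module k V']
    (e : V ≃ₗ[k] V') {ρ : G →* (V →ₗ[k] V)} (h : Cm ρ) : Cm (cj e ρ) := by
  intro x φ
  exact h (e.symm x) (φ ∘ₗ e.toLinearMap)

/-- The direct sum. -/
def pr {V V' : Type*} [AddCommGroup V] [Module k V] [AddCommGroup V'] [Module k V']
    (ρ : G →* (V →ₗ[k] V)) (ρ' : G →* (V' →ₗ[k] V')) : G →* ((V × V') →ₗ[k] (V × V')) where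
  toFun g := (ρ g).prodMap (ρ' g)
  map_one' := by
    ext x <;> simp
  map_mul' g h := by
    ext x <;> simp

theorem pr_apply {V V' : Type*} [AddCommGroup V] [Module k V] [AddCommGroup V'] [Module k V']
    (ρ : G →* (V →ₗ[k] V)) (ρ' : G →* (V' →ₗ[k] V')) (g : G) (x : V × V') :
    pr ρ ρ' g x = (ρ g x.1, ρ' g x.2) := rfl

theorem cm_pr {V V' : Type*} [AddCommGroup V] [Module k V] [AddCommGroup V'] [Module k V']
    {ρ : G →* (V →ₗ[k] V)} {ρ' : G →* (V' →ₗ[k] V')} (h : Cm ρ) (h' : Cm ρ') :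
    Cm (pr ρ ρ') := by
  intro x φ
  have h1 : (fun g => φ (pr ρ ρ' g x)) = fun g =>
      (φ ∘ₗ LinearMap.inl k V V') (ρ g x.1) + (φ ∘ₗ LinearMap.inr k V V') (ρ' g x.2) := by
    funext g
    rw [pr_apply, LinearMap.comp_apply, LinearMap.comp_apply, ← map_add]
    congr 1
    ext <;> simp
  rw [h1]
  exact (h _ _).add (h' _ _)

theorem ssm_pr {V V' : Type*} [AddCommGroup V] [Module k V] [AddCommGroup V'] [Module k V']
    {ρ : G →* (V →ₗ[k] V)} {ρ' : G →* (V' →ₗ[k] V')} (h : SSm ρ) (h' : SSm ρ') :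
    SSm (pr ρ ρ') := by
  intro U hU
  obtain ⟨C1, c1, d1⟩ := h (U.comap (LinearMap.inl k V V')) (by
    intro g x hx
    have := hU g _ hx
    rw [pr_apply] at this
    simpa using this)
  obtain ⟨C2, c2, d2⟩ := h' (U.map (LinearMap.snd k V V')) (by
    rintro g _ ⟨x, hx, rfl⟩
    exact ⟨_, hU g x hx, rfl⟩)
  refine ⟨C1.prod C2, ?_, ?_, ?_⟩
  · rintro g x ⟨h1, h2⟩
    exact ⟨c1 g _ h1, c2 g _ h2⟩
  · rw [Submodule.disjoint_def]
    rintro ⟨x, y⟩ hxU ⟨hx, hy⟩
    have h1 : y = 0 := by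
      refine Submodule.disjoint_def.1 d2.disjoint y ⟨_, hxU, rfl⟩ hy
    subst h1
    have h2 : x = 0 := Submodule.disjoint_def.1 d1.disjoint x hxU hx
    subst h2
    rfl
  · rw [codisjoint_iff, eq_top_iff]
    rintro ⟨x, y⟩ -
    have h1 : y ∈ U.map (LinearMap.snd k V V') ⊔ C2 := by
      rw [d2.sup_eq_top]; trivial
    obtain ⟨_, ⟨⟨x', y'⟩, hu, rfl⟩, c, hc, hy⟩ := Submodule.mem_sup.1 h1
    have h2 : x - x' ∈ U.comap (LinearMap.inl k V V') ⊔ C1 := by
      rw [d1.sup_eq_top]; trivial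
    obtain ⟨a, ha, b, hb, hx⟩ := Submodule.mem_sup.1 h2
    refine Submodule.mem_sup.2 ⟨(x', y') + (a, 0), U.add_mem hu ha, (b, c), ⟨hb, hc⟩, ?_⟩
    have hy' : y' + c = y := hy
    ext
    · show x' + a + b = x
      rw [add_assoc, hx]
      abel
    · show y' + 0 + c = y
      rw [add_zero, hy']

theorem cj_one {V V' : Type*} [AddCommGroup V] [Module k V] [AddCommGroup V'] [Module k V']
    (e : V ≃ₗ[k] V') {ρ : G →* (V →ₗ[k] V)} {g : G} (h : ρ g = 1) : cj e ρ g = 1 := by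
  refine LinearMap.ext fun x => ?_
  rw [cj_apply, h, Module.End.one_apply, e.apply_symm_apply, Module.End.one_apply]

theorem pr_one {V V' : Type*} [AddCommGroup V] [Module k V] [AddCommGroup V'] [Module k V']
    {ρ : G →* (V →ₗ[k] V)} {ρ' : G →* (V' →ₗ[k] V')} {g : G} (h : ρ g = 1) (h' : ρ' g = 1) :
    pr ρ ρ' g = 1 := by
  refine LinearMap.ext fun x => ?_
  rw [pr_apply, h, h', Module.End.one_apply, Module.End.one_apply, Module.End.one_apply]

/-- The restriction to a stable subspace. -/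
def sb {V : Type*} [AddCommGroup V] [Module k V] (ρ : G →* (V →ₗ[k] V)) (U : Submodule k V)
    (hU : ∀ g, ∀ x ∈ U, ρ g x ∈ U) : G →* (U →ₗ[k] U) where
  toFun g := (ρ g).restrict (hU g)
  map_one' := by
    refine LinearMap.ext fun x => Subtype.ext ?_
    rw [LinearMap.coe_restrict_apply, map_one, Module.End.one_apply, Module.End.one_apply]
  map_mul' g h := by
    refine LinearMap.ext fun x => Subtype.ext ?_
    rw [LinearMap.coe_restrict_apply, map_mul, Module.End.mul_apply, Module.End.mul_apply]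
    rfl

/-- The quotient by a stable subspace. -/
def qt {V : Type*} [AddCommGroup V] [Module k V] (ρ : G →* (V →ₗ[k] V)) (U : Submodule k V)
    (hU : ∀ g, ∀ x ∈ U, ρ g x ∈ U) : G →* ((V ⧸ U) →ₗ[k] (V ⧸ U)) where
  toFun g := U.mapQ U (ρ g) (hU g)
  map_one' := by
    refine LinearMap.ext fun x => ?_
    obtain ⟨x, rfl⟩ := U.mkQ_surjective x
    rw [Submodule.mkQ_apply, Submodule.mapQ_apply, map_one, Module.End.one_apply,
      Module.End.one_apply]
  map_mul' g h := by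
    refine LinearMap.ext fun x => ?_
    obtain ⟨x, rfl⟩ := U.mkQ_surjective x
    rw [Submodule.mkQ_apply, Submodule.mapQ_apply, map_mul, Module.End.mul_apply,
      Module.End.mul_apply, Submodule.mapQ_apply, Submodule.mapQ_apply]

theorem sb_one {V : Type*} [AddCommGroup V] [Module k V] {ρ : G →* (V →ₗ[k] V)}
    {U : Submodule k V} (hU : ∀ g, ∀ x ∈ U, ρ g x ∈ U) {g : G} (h : ρ g = 1) :
    sb ρ U hU g = 1 := by
  refine LinearMap.ext fun x => Subtype.ext ?_
  show ρ g x = x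
  rw [h, Module.End.one_apply]

theorem qt_one {V : Type*} [AddCommGroup V] [Module k V] {ρ : G →* (V →ₗ[k] V)}
    {U : Submodule k V} (hU : ∀ g, ∀ x ∈ U, ρ g x ∈ U) {g : G} (h : ρ g = 1) :
    qt ρ U hU g = 1 := by
  refine LinearMap.ext fun x => ?_
  obtain ⟨x, rfl⟩ := U.mkQ_surjective x
  show U.mkQ (ρ g x) = U.mkQ x
  rw [h, Module.End.one_apply]

theorem cm_sb {V : Type*} [AddCommGroup V] [Module k V] {ρ : G →* (V →ₗ[k] V)}
    {U : Submodule k V} (hU : ∀ g, ∀ x ∈ U, ρ g x ∈ U) (h : Cm ρ) : Cm (sb ρ U hU) := by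
  intro x φ
  obtain ⟨ψ, hψ⟩ := LinearMap.exists_extend φ
  have h1 : (fun g => φ (sb ρ U hU g x)) = fun g => ψ (ρ g x) := by
    funext g
    rw [← hψ]
    rfl
  rw [h1]
  exact h _ _

theorem cm_qt {V : Type*} [AddCommGroup V] [Module k V] {ρ : G →* (V →ₗ[k] V)}
    {U : Submodule k V} (hU : ∀ g, ∀ x ∈ U, ρ g x ∈ U) (h : Cm ρ) : Cm (qt ρ U hU) := by
  intro x φ
  obtain ⟨x, rfl⟩ := U.mkQ_surjective x
  exact h x (φ ∘ₗ U.mkQ)

theorem finrank_cast {V : Type*} [AddCommGroup V] [Module k V] [Module.Finite k V] {N : ℕ}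
    (hN : Module.finrank k V = N) : Nonempty (V ≃ₗ[k] (Fin N → k)) :=
  ⟨LinearEquiv.ofFinrankEq _ _ (by rw [hN, Module.finrank_fin_fun])⟩

theorem cp_cj {V V' : Type*} [AddCommGroup V] [Module k V] [AddCommGroup V'] [Module k V']
    [Module.Finite k V] [Module.Finite k V']
    (e : V ≃ₗ[k] V') (ρ : G →* (V →ₗ[k] V)) (g : G) : (cj e ρ g).charpoly = (ρ g).charpoly :=
  LinearEquiv.charpoly_conj e _

theorem cp_pr {V V' : Type*} [AddCommGroup V] [Module k V] [AddCommGroup V'] [Module k V']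
    [Module.Finite k V] [Module.Finite k V']
    (ρ : G →* (V →ₗ[k] V)) (ρ' : G →* (V' →ₗ[k] V')) (g : G) :
    (pr ρ ρ' g).charpoly = (ρ g).charpoly * (ρ' g).charpoly :=
  LinearMap.charpoly_prodMap _ _

theorem cp_sb [Infinite k] {V : Type*} [AddCommGroup V] [Module k V] [Module.Finite k V]
    (ρ : G →* (V →ₗ[k] V)) (U : Submodule k V) (hU : ∀ g, ∀ x ∈ U, ρ g x ∈ U) (g : G) :
    (ρ g).charpoly = (sb ρ U hU g).charpoly * (qt ρ U hU g).charpoly :=
  Pool.Agent.TH119.GO.charpoly_mul (ρ g) U (hU g)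

/-- **Semisimplification.** -/
theorem exists_ss [Infinite k] (N : ℕ) : ∀ {V : Type v} [AddCommGroup V] [Module k V]
    [Module.Finite k V], Module.finrank k V = N → ∀ ρ : G →* (V →ₗ[k] V), Cm ρ →
    ∃ ρ' : G →* ((Fin N → k) →ₗ[k] (Fin N → k)), Cm ρ' ∧ SSm ρ' ∧
      (∀ g, (ρ' g).charpoly = (ρ g).charpoly) ∧ ∀ g, ρ g = 1 → ρ' g = 1 := by
  induction N using Nat.strong_induction_on with
  | _ N ih =>
    intro V _ _ _ hN ρ hρ
    by_cases hirr : ∀ U : Submodule k V, (∀ g, ∀ x ∈ U, ρ g x ∈ U) → U = ⊥ ∨ U = ⊤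
    · obtain ⟨e⟩ := finrank_cast hN
      refine ⟨cj e ρ, cm_cj e hρ, ssm_cj e ?_, ?_, fun g hg => cj_one e hg⟩
      · intro U hU
        rcases hirr U hU with rfl | rfl
        · exact ⟨⊤, fun _ _ _ => trivial, isCompl_bot_top⟩
        · exact ⟨⊥, fun g x hx => by
            rw [Submodule.mem_bot] at hx ⊢
            rw [hx, map_zero], isCompl_top_bot⟩
      · intro g
        exact cp_cj e ρ g
    · push Not at hirr
      obtain ⟨U, hU, hU0, hU1⟩ := hirr
      have hsum : Module.finrank k (V ⧸ U) + Module.finrank k U = N := by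
        rw [← hN]
        exact U.finrank_quotient_add_finrank
      have hlt1 : Module.finrank k U < N := by
        rw [← hN]
        exact Submodule.finrank_lt hU1
      have hlt2 : Module.finrank k (V ⧸ U) < N := by
        have : Module.finrank k U ≠ 0 := fun h => hU0 (Submodule.finrank_eq_zero.1 h)
        omega
      obtain ⟨ρ1', a1, a2, a3, a4⟩ := ih _ hlt1 rfl (sb ρ U hU) (cm_sb hU hρ)
      obtain ⟨ρ2', b1, b2, b3, b4⟩ := ih _ hlt2 rfl (qt ρ U hU) (cm_qt hU hρ)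
      obtain ⟨e⟩ := finrank_cast (k := k)
        (V := (Fin (Module.finrank k U) → k) × (Fin (Module.finrank k (V ⧸ U)) → k)) (N := N) (by
        rw [Module.finrank_prod, Module.finrank_fin_fun, Module.finrank_fin_fun]
        omega)
      refine ⟨cj e (pr ρ1' ρ2'), cm_cj e (cm_pr a1 b1), ssm_cj e (ssm_pr a2 b2), ?_,
        fun g hg => cj_one e (pr_one (a4 g (sb_one hU hg)) (b4 g (qt_one hU hg)))⟩
      intro g
      rw [cp_cj, cp_pr, a3, b3, cp_sb ρ U hU]

end Pool.Agent.TH119.FT
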