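import Mathlib
import Pool.Agent.TH119.GO.Alg

/-!
# Regular functions on `GL_m` and Zariski closures
-/

set_option autoImplicit false
set_option linter.unusedSectionVars false

namespace Pool.Agent.TH119.FT

open Matrix

variable {k : Type*} [Field k] {m n : ℕ}

/-- The index set of the coordinates. -/
abbrev Co (m : ℕ) : Type := (Fin m × Fin m) ⊕ (Fin m × Fin m)

/-- Polynomials in the coefficients of a matrix and of its inverse. -/
abbrev Reg (m : ℕ) (k : Type*) [Field k] : Type _ := MvPolynomial (Co m) k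

/-- The coordinates of an invertible matrix. -/
def cd (g : GL (Fin m) k) : Co m → k :=
  Sum.elim (fun p => (g : Matrix (Fin m) (Fin m) k) p.1 p.2)
    (fun p => ((g⁻¹ : GL (Fin m) k) : Matrix (Fin m) (Fin m) k) p.1 p.2)

/-- The value of a regular function. -/
noncomputable def vl (f : Reg m k) (g : GL (Fin m) k) : k := MvPolynomial.eval (cd g) f

/-- The Zariski closure. -/
def zcl (X : Set (GL (Fin m) k)) : Set (GL (Fin m) k) :=
  {x | ∀ f : Reg m k, (∀ h ∈ X, vl f h = 0) → vl f x = 0}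

theorem subset_zcl (X : Set (GL (Fin m) k)) : X ⊆ zcl X := fun _ hx _ hf => hf _ hx

theorem zcl_mono {X Y : Set (GL (Fin m) k)} (h : X ⊆ zcl Y) : zcl X ⊆ zcl Y := by
  intro x hx f hf
  exact hx f fun y hy => h hy f hf

/-- Left translation. -/
noncomputable def lt (g : GL (Fin m) k) : Reg m k →ₐ[k] Reg m k :=
  MvPolynomial.aeval (Sum.elim
    (fun p => ∑ l, MvPolynomial.C ((g : Matrix (Fin m) (Fin m) k) p.1 l) *
      MvPolynomial.X (Sum.inl (l, p.2)))
    (fun p => ∑ l, MvPolynomial.X (Sum.inr (p.1, l)) *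
      MvPolynomial.C (((g⁻¹ : GL (Fin m) k) : Matrix (Fin m) (Fin m) k) l p.2)))

/-- Right translation. -/
noncomputable def rt (g : GL (Fin m) k) : Reg m k →ₐ[k] Reg m k :=
  MvPolynomial.aeval (Sum.elim
    (fun p => ∑ l, MvPolynomial.X (Sum.inl (p.1, l)) *
      MvPolynomial.C ((g : Matrix (Fin m) (Fin m) k) l p.2))
    (fun p => ∑ l, MvPolynomial.C (((g⁻¹ : GL (Fin m) k) : Matrix (Fin m) (Fin m) k) p.1 l) *
      MvPolynomial.X (Sum.inr (l, p.2))))

/-- Inversion. -/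
noncomputable def iv : Reg m k →ₐ[k] Reg m k :=
  MvPolynomial.aeval (Sum.elim
    (fun p => MvPolynomial.X (Sum.inr p)) (fun p => MvPolynomial.X (Sum.inl p)))

theorem vl_lt (g : GL (Fin m) k) (f : Reg m k) (h : GL (Fin m) k) :
    vl (lt g f) h = vl f (g * h) := by
  have key : ((MvPolynomial.aeval (cd h) : Reg m k →ₐ[k] k).comp (lt g)) =
      (MvPolynomial.aeval (cd (g * h)) : Reg m k →ₐ[k] k) := by
    refine MvPolynomial.algHom_ext fun c => ?_
    rw [AlgHom.comp_apply, lt, MvPolynomial.aeval_X]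
    rcases c with p | p
    · simp [cd, Matrix.mul_apply]
    · simp [cd, Matrix.mul_apply]
  exact congrArg (fun φ : Reg m k →ₐ[k] k => φ f) key

theorem vl_rt (g : GL (Fin m) k) (f : Reg m k) (h : GL (Fin m) k) :
    vl (rt g f) h = vl f (h * g) := by
  have key : ((MvPolynomial.aeval (cd h) : Reg m k →ₐ[k] k).comp (rt g)) =
      (MvPolynomial.aeval (cd (h * g)) : Reg m k →ₐ[k] k) := by
    refine MvPolynomial.algHom_ext fun c => ?_
    rw [AlgHom.comp_apply, rt, MvPolynomial.aeval_X]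
    rcases c with p | p
    · simp [cd, Matrix.mul_apply]
    · simp [cd, Matrix.mul_apply]
  exact congrArg (fun φ : Reg m k →ₐ[k] k => φ f) key

theorem vl_iv (f : Reg m k) (h : GL (Fin m) k) : vl (iv f) h = vl f h⁻¹ := by
  have key : ((MvPolynomial.aeval (cd h) : Reg m k →ₐ[k] k).comp iv) =
      (MvPolynomial.aeval (cd h⁻¹) : Reg m k →ₐ[k] k) := by
    refine MvPolynomial.algHom_ext fun c => ?_
    rw [AlgHom.comp_apply, iv, MvPolynomial.aeval_X]
    rcases c with p | p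
    · simp [cd]
    · simp [cd]
  exact congrArg (fun φ : Reg m k →ₐ[k] k => φ f) key

/-- Two-variable density: a family of functions which is regular in each variable and vanishes on
`X × X` vanishes on the closures. -/
theorem two_var {X : Set (GL (Fin m) k)} (B : GL (Fin m) k → GL (Fin m) k → k)
    (h1 : ∀ x, ∃ f : Reg m k, ∀ y, B x y = vl f y) (h2 : ∀ y, ∃ f : Reg m k, ∀ x, B x y = vl f x)
    (h0 : ∀ x ∈ X, ∀ y ∈ X, B x y = 0) : ∀ x ∈ zcl X, ∀ y ∈ zcl X, B x y = 0 := by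
  have h3 : ∀ x ∈ X, ∀ y ∈ zcl X, B x y = 0 := by
    intro x hx y hy
    obtain ⟨f, hf⟩ := h1 x
    rw [hf]
    refine hy f fun z hz => ?_
    rw [← hf]
    exact h0 x hx z hz
  intro x hx y hy
  obtain ⟨f, hf⟩ := h2 y
  rw [hf]
  refine hx f fun z hz => ?_
  rw [← hf]
  exact h3 z hz y hy

theorem zcl_mul {X : Set (GL (Fin m) k)} (hX : ∀ x ∈ X, ∀ y ∈ X, x * y ∈ X)
    {x y : GL (Fin m) k} (hx : x ∈ zcl X) (hy : y ∈ zcl X) : x * y ∈ zcl X := by
  intro f hf
  refine two_var (X := X) (fun x y => vl f (x * y)) (fun x => ⟨lt x f, fun y => (vl_lt x f y).symm⟩)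
    (fun y => ⟨rt y f, fun x => (vl_rt y f x).symm⟩) (fun x hx y hy => hf _ (hX x hx y hy)) x hx y hy

theorem zcl_inv {X : Set (GL (Fin m) k)} (hX : ∀ x ∈ X, x⁻¹ ∈ X)
    {x : GL (Fin m) k} (hx : x ∈ zcl X) : x⁻¹ ∈ zcl X := by
  intro f hf
  rw [← vl_iv]
  refine hx _ fun y hy => ?_
  rw [vl_iv]
  exact hf _ (hX y hy)

/-- The matrix of the values. -/
noncomputable def mv (F : Matrix (Fin n) (Fin n) (Reg m k)) (g : GL (Fin m) k) :
    Matrix (Fin n) (Fin n) k := F.map fun f => vl f g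

theorem mv_apply (F : Matrix (Fin n) (Fin n) (Reg m k)) (g : GL (Fin m) k) (i j : Fin n) :
    mv F g i j = vl (F i j) g := rfl

theorem vl_add (f f' : Reg m k) (g : GL (Fin m) k) : vl (f + f') g = vl f g + vl f' g :=
  map_add _ _ _

theorem vl_sub (f f' : Reg m k) (g : GL (Fin m) k) : vl (f - f') g = vl f g - vl f' g :=
  map_sub _ _ _

theorem vl_mul (f f' : Reg m k) (g : GL (Fin m) k) : vl (f * f') g = vl f g * vl f' g :=
  map_mul _ _ _

theorem vl_sum {ι : Type*} (s : Finset ι) (f : ι → Reg m k) (g : GL (Fin m) k) :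
    vl (∑ i ∈ s, f i) g = ∑ i ∈ s, vl (f i) g := map_sum _ _ _

theorem vl_C (c : k) (g : GL (Fin m) k) : vl (MvPolynomial.C c) g = c := MvPolynomial.eval_C _

theorem mv_mul (F F' : Matrix (Fin n) (Fin n) (Reg m k)) (g : GL (Fin m) k) :
    mv (F * F') g = mv F g * mv F' g := by
  ext i j
  rw [mv_apply, Matrix.mul_apply, vl_sum, Matrix.mul_apply]
  simp only [vl_mul, mv_apply]

/-- **Multiplicativity passes to the Zariski closure.** -/
theorem mv_mul_zcl {X : Set (GL (Fin m) k)} (F : Matrix (Fin n) (Fin n) (Reg m k))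
    (h : ∀ x ∈ X, ∀ y ∈ X, mv F (x * y) = mv F x * mv F y) :
    ∀ x ∈ zcl X, ∀ y ∈ zcl X, mv F (x * y) = mv F x * mv F y := by
  intro x hx y hy
  ext i j
  have h3 := two_var (X := X) (fun x y => vl (F i j) (x * y) - (mv F x * mv F y) i j)
    (fun x => ⟨lt x (F i j) - ∑ l, MvPolynomial.C (mv F x i l) * F l j, fun y => by
      rw [vl_sub, vl_lt, vl_sum, Matrix.mul_apply]
      simp only [vl_mul, vl_C, mv_apply]⟩)
    (fun y => ⟨rt y (F i j) - ∑ l, F i l * MvPolynomial.C (mv F y l j), fun x => by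
      rw [vl_sub, vl_rt, vl_sum, Matrix.mul_apply]
      simp only [vl_mul, vl_C, mv_apply]⟩)
    (fun x hx y hy => by
      rw [← h x hx y hy, mv_apply, sub_self]) x hx y hy
  exact sub_eq_zero.1 h3

/-- The coefficient of the characteristic polynomial, as a regular function. -/
theorem vl_charpoly_coeff (F : Matrix (Fin n) (Fin n) (Reg m k)) (i : ℕ) (g : GL (Fin m) k) :
    vl (F.charpoly.coeff i) g = (mv F g).charpoly.coeff i := by
  have h1 : (F.charpoly.map (MvPolynomial.eval (cd g))) = (mv F g).charpoly := by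
    rw [← Matrix.charpoly_map]
    rfl
  rw [← h1, Polynomial.coeff_map]
  rfl

/-- Class functions. -/
def Cls (Y : Set (GL (Fin m) k)) (f : Reg m k) : Prop :=
  ∀ x ∈ Y, ∀ y ∈ Y, vl f (x * y * x⁻¹) = vl f y

/-- The coefficients of the characteristic polynomial of a multiplicative `F` are class
functions. -/
theorem cls_of_mul {Y : Set (GL (Fin m) k)} (hY : ∀ x ∈ Y, ∀ y ∈ Y, x * y ∈ Y)
    (hY' : ∀ x ∈ Y, x⁻¹ ∈ Y) (_hY1 : (1 : GL (Fin m) k) ∈ Y)
    (F : Matrix (Fin n) (Fin n) (Reg m k))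
    (h : ∀ x ∈ Y, ∀ y ∈ Y, mv F (x * y) = mv F x * mv F y) (h1 : mv F 1 = 1) (i : ℕ) :
    Cls Y (F.charpoly.coeff i) := by
  intro x hx y hy
  rw [vl_charpoly_coeff, vl_charpoly_coeff]
  have e1 : mv F (x * y * x⁻¹) = mv F x * mv F y * mv F x⁻¹ := by
    rw [h _ (hY x hx y hy) _ (hY' x hx), h x hx y hy]
  have e2 : mv F x * mv F x⁻¹ = 1 := by
    rw [← h x hx _ (hY' x hx), mul_inv_cancel, h1]
  have e3 : mv F x⁻¹ * mv F x = 1 := by
    rw [← h _ (hY' x hx) x hx, inv_mul_cancel, h1]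
  rw [e1]
  have e4 := Matrix.charpoly_units_conj (⟨mv F x, mv F x⁻¹, e2, e3⟩ :
    (Matrix (Fin n) (Fin n) k)ˣ) (mv F y)
  rw [← Matrix.coe_units_inv] at e4
  exact congrArg (fun p => Polynomial.coeff p i) e4

end Pool.Agent.TH119.FT
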