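import Mathlib
import Pool.Agent.TH119.FT.Reg

/-!
# Specialisation of the coefficients
-/

set_option autoImplicit false
set_option linter.unusedSectionVars false

namespace Pool.Agent.TH119.FT

open Matrix

universe u v

variable {A : Type u} {Ω : Type v} [Field A] [Field Ω] {m n : ℕ}

/-- The map on invertible matrices. -/
abbrev gm (ι : A →+* Ω) : GL (Fin m) A →* GL (Fin m) Ω := Matrix.GeneralLinearGroup.map ι

theorem cd_gm (ι : A →+* Ω) (g : GL (Fin m) A) : cd (gm ι g) = fun c => ι (cd g c) := by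
  funext c
  rcases c with p | p
  · rfl
  · show (((gm ι g)⁻¹ : GL (Fin m) Ω) : Matrix (Fin m) (Fin m) Ω) p.1 p.2 = _
    rw [← map_inv]
    rfl

theorem vl_map (ι : A →+* Ω) (f : Reg m A) (g : GL (Fin m) A) :
    vl (MvPolynomial.map ι f) (gm ι g) = ι (vl f g) := by
  rw [vl, MvPolynomial.eval_map, cd_gm, vl, MvPolynomial.eval, MvPolynomial.coe_eval₂Hom,
    MvPolynomial.eval₂_comp_left]
  rfl

/-- **Specialisation.** -/
theorem spec [IsAlgClosed A] (ι : A →+* Ω) (F : Matrix (Fin n) (Fin n) (Reg m Ω)) :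
    ∃ (F' : Matrix (Fin n) (Fin n) (Reg m A)) (R : Type v) (_ : CommRing R) (ψ : R →+* Ω)
      (φ : R →+* A) (σ : A →+* R) (u : GL (Fin m) A → Matrix (Fin n) (Fin n) R),
      Function.Injective ψ ∧ ψ.comp σ = ι ∧ φ.comp σ = RingHom.id A ∧
      ∀ a, (u a).map ψ = mv F (gm ι a) ∧ (u a).map φ = mv F' a := by
  classical
  let _ : Algebra A Ω := ι.toAlgebra
  let c : Set Ω := ⋃ p : Fin n × Fin n, ((F p.1 p.2).coeffs : Set Ω)
  have hc : c.Finite := Set.finite_iUnion fun p => Finset.finite_toSet _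
  let R : Subalgebra A Ω := Algebra.adjoin A c
  have hR : Algebra.FiniteType A R := by
    rw [← Subalgebra.fg_iff_finiteType]
    exact Subalgebra.fg_def.2 ⟨c, hc, rfl⟩
  obtain ⟨y, -⟩ := Pool.Agent.TH119.GO.exists_point (k := A) (A := R) ⊥ bot_ne_top
  have h1 : ∀ i j, ∃ f : MvPolynomial (Co m) R, MvPolynomial.map (R.val : R →+* Ω) f = F i j := by
    intro i j
    have h2 : F i j ∈ Set.range (MvPolynomial.map (σ := Co m) (R.val : R →+* Ω)) := by
      rw [MvPolynomial.mem_range_map_iff_coeffs_subset]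
      intro x hx
      refine ⟨⟨x, Algebra.subset_adjoin ?_⟩, rfl⟩
      exact Set.mem_iUnion.2 ⟨(i, j), hx⟩
    exact h2
  choose f hf using h1
  let σ : A →+* R := algebraMap A R
  refine ⟨Matrix.of fun i j => MvPolynomial.map (y : R →+* A) (f i j), R, inferInstance,
    (R.val : R →+* Ω), (y : R →+* A), σ,
    fun a => Matrix.of fun i j => MvPolynomial.eval (fun c => σ (cd a c)) (f i j),
    Subtype.val_injective, ?_, ?_, ?_⟩
  · rfl
  · ext a
    exact y.commutes a
  · intro a
    constructor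
    · ext i j
      show (R.val : R →+* Ω) (MvPolynomial.eval (fun c => σ (cd a c)) (f i j)) =
        vl (F i j) (gm ι a)
      rw [← hf i j, vl, MvPolynomial.eval_map, MvPolynomial.eval, MvPolynomial.coe_eval₂Hom,
        MvPolynomial.eval₂_comp_left, cd_gm]
      rfl
    · ext i j
      show (y : R →+* A) (MvPolynomial.eval (fun c => σ (cd a c)) (f i j)) =
        vl (MvPolynomial.map (y : R →+* A) (f i j)) a
      rw [vl, MvPolynomial.eval_map, MvPolynomial.eval, MvPolynomial.coe_eval₂Hom,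
        MvPolynomial.eval₂_comp_left]
      congr 1
      funext c
      exact y.commutes _

/-- **Specialisation of a multiplicative matrix of regular functions.** -/
theorem spec_rep [IsAlgClosed A] (ι : A →+* Ω) (F : Matrix (Fin n) (Fin n) (Reg m Ω))
    (X : Set (GL (Fin m) A))
    (hF : ∀ x ∈ X, ∀ y ∈ X, mv F (gm ι x * gm ι y) = mv F (gm ι x) * mv F (gm ι y))
    (hF1 : mv F 1 = 1) :
    ∃ F' : Matrix (Fin n) (Fin n) (Reg m A),
      (∀ x ∈ X, ∀ y ∈ X, mv F' (x * y) = mv F' x * mv F' y) ∧ mv F' 1 = 1 ∧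
      ∀ x ∈ X, ∀ p : Polynomial A, (mv F (gm ι x)).charpoly = p.map ι →
        (mv F' x).charpoly = p := by
  obtain ⟨F', R, _, ψ, φ, σ, u, hψ, h1, h2, hu⟩ := spec ι F
  have hinj : ∀ M N : Matrix (Fin n) (Fin n) R, M.map ψ = N.map ψ → M = N := by
    intro M N h
    ext i j
    exact hψ (congrFun (congrFun h i) j)
  refine ⟨F', ?_, ?_, ?_⟩
  · intro x hx y hy
    have e1 : u (x * y) = u x * u y := by
      apply hinj
      rw [(hu _).1, Matrix.map_mul, (hu _).1, (hu _).1, ← hF x hx y hy, map_mul]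
    rw [← (hu _).2, e1, Matrix.map_mul, (hu _).2, (hu _).2]
  · have e1 : u 1 = 1 := by
      apply hinj
      rw [(hu _).1, map_one, hF1, Matrix.map_one _ (map_zero _) (map_one _)]
    rw [← (hu _).2, e1, Matrix.map_one _ (map_zero _) (map_one _)]
  · intro x hx p hp
    have e1 : (u x).charpoly = p.map σ := by
      apply Polynomial.map_injective ψ hψ
      rw [← Matrix.charpoly_map, Polynomial.map_map, h1, ← hp]
      exact congrArg _ (hu x).1
    have e2 : (mv F' x).charpoly = ((u x).charpoly).map φ := by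
      rw [← Matrix.charpoly_map, ← (hu x).2]
    rw [e2, e1, Polynomial.map_map, h2, Polynomial.map_id]

end Pool.Agent.TH119.FT
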