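import Mathlib
import Pool.Agent.TH119.FT.Spec
import Pool.Agent.TH119.FT.Semi
import Pool.Agent.TH119.GO.Gal

/-!
# Tensor constructions as matrices of regular functions
-/

set_option autoImplicit false
set_option linter.unusedSectionVars false

namespace Pool.Agent.TH119.FT

open Matrix
open Pool.Agent.TH119.OP (SS)
open Pool.Agent.TH119.GO (TT TT_mul TT_apply AA AA_le_of ent ent' ent_mem ent'_mem)

variable {G : Type*} [Group G] {k : Type*} [Field k] {m n : ℕ}

/-- The elements of `AA W` are regular functions of `W`. -/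
theorem exists_reg (W : G →* GL (Fin m) k) {f : G → k} (hf : f ∈ AA W) :
    ∃ F : Reg m k, ∀ g, f g = vl F (W g) := by
  let Φ : Reg m k →ₐ[k] (G → k) := AlgHom.pi fun g =>
    (MvPolynomial.aeval (cd (W g)) : Reg m k →ₐ[k] k)
  have h1 : AA W ≤ Φ.range := by
    refine AA_le_of W _ (fun i j => ⟨MvPolynomial.X (Sum.inl (i, j)), ?_⟩)
      (fun i j => ⟨MvPolynomial.X (Sum.inr (i, j)), ?_⟩)
    · funext g
      show (MvPolynomial.aeval (cd (W g)) : Reg m k →ₐ[k] k) _ = _
      rw [MvPolynomial.aeval_X]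
      rfl
    · funext g
      show (MvPolynomial.aeval (cd (W g)) : Reg m k →ₐ[k] k) _ = _
      rw [MvPolynomial.aeval_X]
      show (((W g)⁻¹ : GL (Fin m) k) : Matrix (Fin m) (Fin m) k) i j = _
      rw [← map_inv]
      rfl
  obtain ⟨F, hF⟩ := h1 hf
  refine ⟨F, fun g => ?_⟩
  rw [← hF]
  rfl

theorem TT_one (W : G →* GL (Fin m) k) (a b : ℕ) : TT W a b 1 = 1 := by
  classical
  ext I J
  rw [TT_apply, Matrix.one_apply]
  simp only [Pool.Agent.TH119.GO.ent_one, Pool.Agent.TH119.GO.ent'_one]
  rw [Finset.prod_ite_zero, Finset.prod_ite_zero]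
  simp only [Finset.prod_const_one]
  by_cases h : I = J
  · subst h
    simp
  · rw [if_neg h]
    by_cases h1 : I.1 = J.1
    · have h2 : I.2 ≠ J.2 := fun h2 => h (Prod.ext h1 h2)
      rw [if_neg (c := ∀ i ∈ Finset.univ, J.2 i = I.2 i), mul_zero]
      intro h3
      exact h2 (funext fun i => (h3 i (Finset.mem_univ _)).symm)
    · rw [if_neg (c := ∀ i ∈ Finset.univ, I.1 i = J.1 i), zero_mul]
      intro h3
      exact h1 (funext fun i => h3 i (Finset.mem_univ _))

/-- The size. -/
abbrev sz (m a b : ℕ) : ℕ := Fintype.card ((Fin a → Fin m) × (Fin b → Fin m))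

/-- The numbering. -/
noncomputable abbrev nu (m a b : ℕ) : ((Fin a → Fin m) × (Fin b → Fin m)) ≃ Fin (sz m a b) :=
  Fintype.equivFin _

/-- The tensor construction as a homomorphism to `GL`. -/
noncomputable def tg (W : G →* GL (Fin m) k) (a b : ℕ) : G →* GL (Fin (sz m a b)) k :=
  MonoidHom.toHomUnits
    { toFun := fun g => Matrix.reindex (nu m a b) (nu m a b) (TT W a b g)
      map_one' := by
        rw [TT_one, Matrix.reindex_apply, Matrix.submatrix_one_equiv]
      map_mul' := fun g h => by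
        rw [TT_mul]
        simp only [Matrix.reindex_apply]
        exact (Matrix.submatrix_mul_equiv _ _ _ _ _).symm }

theorem tg_apply (W : G →* GL (Fin m) k) (a b : ℕ) (g : G) :
    (tg W a b g : Matrix (Fin (sz m a b)) (Fin (sz m a b)) k) =
      Matrix.reindex (nu m a b) (nu m a b) (TT W a b g) := rfl

theorem tg_charpoly (W : G →* GL (Fin m) k) (a b : ℕ) (g : G) :
    (tg W a b g : Matrix (Fin (sz m a b)) (Fin (sz m a b)) k).charpoly =
      (TT W a b g).charpoly := by
  rw [tg_apply, Matrix.charpoly_reindex]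

theorem tg_ent (W : G →* GL (Fin m) k) (a b : ℕ) (i j : Fin (sz m a b)) :
    ent (tg W a b) i j ∈ AA W := by
  have h1 : ent (tg W a b) i j =
      (∏ s, ent W (((nu m a b).symm i).1 s) (((nu m a b).symm j).1 s)) *
        ∏ t, ent' W (((nu m a b).symm j).2 t) (((nu m a b).symm i).2 t) := by
    funext g
    rw [Pi.mul_apply, Finset.prod_apply, Finset.prod_apply]
    rfl
  rw [h1]
  exact (AA W).mul_mem (Subalgebra.prod_mem _ fun s _ => ent_mem W _ _)
    (Subalgebra.prod_mem _ fun s _ => ent'_mem W _ _)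

theorem tg_ent' (W : G →* GL (Fin m) k) (a b : ℕ) (i j : Fin (sz m a b)) :
    ent' (tg W a b) i j ∈ AA W := by
  have h1 : ent' (tg W a b) i j =
      (∏ s, ent' W (((nu m a b).symm i).1 s) (((nu m a b).symm j).1 s)) *
        ∏ t, ent W (((nu m a b).symm j).2 t) (((nu m a b).symm i).2 t) := by
    funext g
    rw [Pi.mul_apply, Finset.prod_apply, Finset.prod_apply]
    show TT W a b g⁻¹ _ _ = _
    rw [TT_apply]
    congr 1
    refine Finset.prod_congr rfl fun t _ => ?_
    show (W g⁻¹⁻¹ : Matrix (Fin m) (Fin m) k) _ _ = _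
    rw [inv_inv]
    rfl
  rw [h1]
  exact (AA W).mul_mem (Subalgebra.prod_mem _ fun s _ => ent'_mem W _ _)
    (Subalgebra.prod_mem _ fun s _ => ent_mem W _ _)

theorem AA_tg (W : G →* GL (Fin m) k) (a b : ℕ) : AA (tg W a b) ≤ AA W :=
  AA_le_of _ _ (tg_ent W a b) (tg_ent' W a b)

/-- The matrix of regular functions of the tensor construction. -/
noncomputable def tr (m : ℕ) (k : Type*) [Field k] (a b : ℕ) :
    Matrix (Fin (sz m a b)) (Fin (sz m a b)) (Reg m k) :=
  Matrix.of fun i j =>
    (∏ s, MvPolynomial.X (Sum.inl (((nu m a b).symm i).1 s, ((nu m a b).symm j).1 s))) *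
      ∏ t, MvPolynomial.X (Sum.inr (((nu m a b).symm j).2 t, ((nu m a b).symm i).2 t))

theorem mv_tr (a b : ℕ) (g : GL (Fin m) k) : mv (tr m k a b) g =
    (tg (MonoidHom.id (GL (Fin m) k)) a b g : Matrix (Fin (sz m a b)) (Fin (sz m a b)) k) := by
  ext i j
  rw [mv_apply, tr, Matrix.of_apply, vl, map_mul, map_prod, map_prod]
  simp only [MvPolynomial.eval_X]
  rfl

/-- The characteristic polynomial of the tensor construction is a class function. -/
theorem charpoly_TT (a b : ℕ) (Y : Set (GL (Fin m) k)) (x y : GL (Fin m) k)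
    (h : ∀ f : Reg m k, Cls Y f → vl f x = vl f y) :
    (TT (MonoidHom.id (GL (Fin m) k)) a b x).charpoly =
      (TT (MonoidHom.id (GL (Fin m) k)) a b y).charpoly := by
  rw [← tg_charpoly, ← tg_charpoly, ← mv_tr, ← mv_tr]
  ext i
  rw [← vl_charpoly_coeff, ← vl_charpoly_coeff]
  apply h
  have h1 := cls_of_mul (Y := (Set.univ : Set (GL (Fin m) k))) (fun _ _ _ _ => trivial)
    (fun _ _ => trivial) trivial (tr m k a b) (fun x _ y _ => by
      rw [mv_tr, mv_tr, mv_tr, map_mul]
      rfl) (by
      rw [mv_tr, map_one]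
      rfl) i
  exact fun x _ y _ => h1 x trivial y trivial

/-- A multiplicative matrix of functions as a homomorphism to `GL`. -/
noncomputable def mkHom (R : G → Matrix (Fin n) (Fin n) k) (h1 : R 1 = 1)
    (hm : ∀ g h, R (g * h) = R g * R h) : G →* GL (Fin n) k :=
  MonoidHom.toHomUnits { toFun := R, map_one' := h1, map_mul' := hm }

theorem mkHom_apply (R : G → Matrix (Fin n) (Fin n) k) (h1 : R 1 = 1)
    (hm : ∀ g h, R (g * h) = R g * R h) (g : G) :
    (mkHom R h1 hm g : Matrix (Fin n) (Fin n) k) = R g := rfl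

/-- **Semisimplification, for matrices.** -/
theorem exists_ss_mat [TopologicalSpace G] [TopologicalSpace k] [IsTopologicalRing k] [Infinite k]
    (r : G →* GL (Fin n) k) (hr : Continuous fun g => (r g : Matrix (Fin n) (Fin n) k)) :
    ∃ ρ : G →* GL (Fin n) k, Continuous (fun g => (ρ g : Matrix (Fin n) (Fin n) k)) ∧ SS ρ ∧
      (∀ g, (ρ g : Matrix (Fin n) (Fin n) k).charpoly =
        (r g : Matrix (Fin n) (Fin n) k).charpoly) ∧ ∀ g, r g = 1 → ρ g = 1 := by
  classical
  let R : G →* ((Fin n → k) →ₗ[k] (Fin n → k)) :=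
    { toFun := fun g => Matrix.toLin' (r g : Matrix (Fin n) (Fin n) k)
      map_one' := by
        rw [map_one, Units.val_one, Matrix.toLin'_one]
        rfl
      map_mul' := fun g h => by
        rw [map_mul, Units.val_mul, Matrix.toLin'_mul]
        rfl }
  have hR : Cm R := by
    intro x φ
    have h1 : (fun g => φ (R g x)) = fun g => ∑ i, (∑ j, (r g : Matrix (Fin n) (Fin n) k) i j *
        x j) • φ (fun j => if i = j then 1 else 0) := by
      funext g
      rw [LinearMap.pi_apply_eq_sum_univ φ (R g x)]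
      rfl
    rw [h1]
    refine continuous_finsetSum _ fun i _ => ?_
    exact (continuous_finsetSum _ fun j _ => (hr.matrix_elem i j).mul continuous_const).mul
      continuous_const
  obtain ⟨ρ', h1, h2, h3, h4⟩ := exists_ss n (Module.finrank_fin_fun k) R hR
  have hmat : ∀ g x, (LinearMap.toMatrix' (ρ' g)).mulVec x = ρ' g x := by
    intro g x
    rw [← Matrix.toLin'_apply, Matrix.toLin'_toMatrix']
  refine ⟨mkHom (fun g => LinearMap.toMatrix' (ρ' g)) ?_ ?_, ?_, ?_, ?_, ?_⟩
  · rw [map_one]
    exact LinearMap.toMatrix'_one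
  · intro g h
    rw [map_mul]
    exact LinearMap.toMatrix'_mul _ _
  · simp only [mkHom_apply]
    refine continuous_matrix fun i j => ?_
    have := h1 (Pi.single j 1) (LinearMap.proj i)
    refine this.congr fun g => ?_
    rw [LinearMap.toMatrix'_apply]
    rfl
  · intro U hU
    obtain ⟨U', a1, a2⟩ := h2 U (fun g x hx => by
      have := hU g x hx
      rw [mkHom_apply, hmat] at this
      exact this)
    refine ⟨U', fun g x hx => ?_, a2⟩
    rw [mkHom_apply, hmat]
    exact a1 g x hx
  · intro g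
    rw [mkHom_apply, ← Matrix.charpoly_toLin', Matrix.toLin'_toMatrix', h3]
    exact Matrix.charpoly_toLin' _
  · intro g hg
    apply Units.ext
    rw [mkHom_apply, h4 g]
    · exact LinearMap.toMatrix'_one
    · show Matrix.toLin' (r g : Matrix (Fin n) (Fin n) k) = 1
      rw [hg, Units.val_one, Matrix.toLin'_one]
      rfl

end Pool.Agent.TH119.FT
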